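import Mathlib

namespace Pool.Agent.Results.MP_30cdc8_co.LinearBound

open Finset

set_option linter.unusedSectionVars false
set_option linter.unusedSimpArgs false

/-! ## The core counting argument, for an arbitrary `r`-ary relation -/

section Core

variable {r : ℕ} {V W : Type} [Fintype V] [DecidableEq V] [Fintype W] [DecidableEq W]

/-- Averaging over the value of `φ` at one vertex. -/
theorem sum_update (w : V) (h : (V → W) → ℝ) :
    ∑ φ : V → W, ∑ y : W, h (Function.update φ w y) = (Fintype.card W : ℝ) * ∑ φ : V → W, h φ := by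
  have e1 : ∑ φ : V → W, ∑ y : W, h (Function.update φ w y) =
      ∑ p : (V → W) × W, h (Function.update p.1 w p.2) := by
    rw [Fintype.sum_prod_type]
  have e2 : ∑ p : (V → W) × W, h (Function.update p.1 w p.2) = ∑ p : (V → W) × W, h p.1 := by
    let σ : (V → W) × W ≃ (V → W) × W :=
      { toFun := fun p => (Function.update p.1 w p.2, p.1 w)
        invFun := fun p => (Function.update p.1 w p.2, p.1 w)
        left_inv := fun p => by simp
        right_inv := fun p => by simp }
    exact Equiv.sum_comp σ (fun p => h p.1)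
  rw [e1, e2, Fintype.sum_prod_type]
  simp [Finset.mul_sum]

variable (c : V → Fin r) (E : Finset (Fin r → V)) (R : (Fin r → W) → Prop)

/-- The values allowed for the vertex `v` once the vertices of smaller colour are embedded by `φ`,
the larger colours being represented by the reference edge `z`. -/
noncomputable def dom (v : V) (z : Fin r → W) (φ : V → W) : Finset W :=
  open Classical in univ.filter (fun y => ∀ e ∈ E, e (c v) = v →
    R (fun i => if i < c v then φ (e i) else if i = c v then y else z i))

/-- The density, with respect to the uniform distribution, of the uniform distribution on the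
allowed values, evaluated at `φ v`. -/
noncomputable def ker (v : V) (z : Fin r → W) (φ : V → W) : ℝ :=
  if dom c E R v z φ = ∅ then 1
  else if φ v ∈ dom c E R v z φ then (Fintype.card W : ℝ) / ((dom c E R v z φ).card : ℝ) else 0

theorem mem_dom {v : V} {z : Fin r → W} {φ : V → W} {y : W} :
    y ∈ dom c E R v z φ ↔ ∀ e ∈ E, e (c v) = v →
      R (fun i => if i < c v then φ (e i) else if i = c v then y else z i) := by
  simp [dom]

theorem dom_congr {v : V} {z : Fin r → W} {φ ψ : V → W}
    (h : ∀ e ∈ E, e (c v) = v → ∀ i, i < c v → φ (e i) = ψ (e i)) :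
    dom c E R v z φ = dom c E R v z ψ := by
  ext y
  rw [mem_dom, mem_dom]
  refine forall₃_congr fun e he hev => ?_
  have : (fun i => if i < c v then φ (e i) else if i = c v then y else z i) =
      (fun i => if i < c v then ψ (e i) else if i = c v then y else z i) := by
    funext i
    by_cases hi : i < c v
    · simp only [hi, if_true]; exact h e he hev i hi
    · simp only [hi, if_false]
  rw [this]

theorem dom_congr_z {v : V} {z z' : Fin r → W} {φ : V → W}
    (h : ∀ i, c v < i → z i = z' i) :
    dom c E R v z φ = dom c E R v z' φ := by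
  ext y
  rw [mem_dom, mem_dom]
  refine forall₃_congr fun e he hev => ?_
  have : (fun i => if i < c v then φ (e i) else if i = c v then y else z i) =
      (fun i => if i < c v then φ (e i) else if i = c v then y else z' i) := by
    funext i
    by_cases hi : i < c v
    · simp only [hi, if_true]
    · by_cases hi2 : i = c v
      · simp only [hi, hi2, if_false, if_true]
      · simp only [hi, hi2, if_false]
        exact h i (lt_of_le_of_ne (not_lt.1 hi) (Ne.symm hi2))
  rw [this]

theorem ker_congr {v : V} {z : Fin r → W} {φ ψ : V → W}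
    (h : ∀ e ∈ E, e (c v) = v → ∀ i, i < c v → φ (e i) = ψ (e i)) (hv : φ v = ψ v) :
    ker c E R v z φ = ker c E R v z ψ := by
  unfold ker
  rw [dom_congr c E R h, hv]

theorem ker_nonneg (v : V) (z : Fin r → W) (φ : V → W) : 0 ≤ ker c E R v z φ := by
  unfold ker
  split_ifs
  · exact zero_le_one
  · positivity
  · exact le_rfl

variable {c E}

theorem dom_update (hE : ∀ e ∈ E, ∀ i, c (e i) = i) (v : V) (z : Fin r → W) (φ : V → W) (y : W) :
    dom c E R v z (Function.update φ v y) = dom c E R v z φ := by
  apply dom_congr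
  intro e he _ i hi
  rw [Function.update_of_ne]
  intro h
  have := hE e he i
  rw [h] at this
  rw [this] at hi
  exact lt_irrefl _ hi

theorem sum_ker [Nonempty W] (hE : ∀ e ∈ E, ∀ i, c (e i) = i) (v : V) (z : Fin r → W)
    (φ : V → W) :
    ∑ y : W, ker c E R v z (Function.update φ v y) = (Fintype.card W : ℝ) := by
  have h1 : ∀ y : W, ker c E R v z (Function.update φ v y) =
      if dom c E R v z φ = ∅ then 1
      else if y ∈ dom c E R v z φ then
        (Fintype.card W : ℝ) / ((dom c E R v z φ).card : ℝ) else 0 := by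
    intro y
    unfold ker
    rw [dom_update R hE, Function.update_self]
  simp only [h1]
  by_cases h : dom c E R v z φ = ∅
  · simp [h]
  · simp only [h, if_false]
    rw [Finset.sum_ite_mem, Finset.univ_inter, Finset.sum_const, nsmul_eq_mul]
    have : ((dom c E R v z φ).card : ℝ) ≠ 0 := by
      rw [Nat.cast_ne_zero]
      exact fun h2 => h (Finset.card_eq_zero.1 h2)
    field_simp

/-- Integrating out one vertex. -/
theorem sum_mul_ker [Nonempty W] (hE : ∀ e ∈ E, ∀ i, c (e i) = i) (v : V) (z : Fin r → W)
    (g : (V → W) → ℝ) (hg : ∀ φ y, g (Function.update φ v y) = g φ) :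
    ∑ φ : V → W, g φ * ker c E R v z φ = ∑ φ : V → W, g φ := by
  have hN : (Fintype.card W : ℝ) ≠ 0 := by
    rw [Nat.cast_ne_zero]; exact Fintype.card_ne_zero
  have h1 := sum_update v (fun φ => g φ * ker c E R v z φ)
  have h2 : ∑ φ : V → W, ∑ y : W, g (Function.update φ v y) *
      ker c E R v z (Function.update φ v y) = (Fintype.card W : ℝ) * ∑ φ : V → W, g φ := by
    rw [Finset.mul_sum]
    refine Finset.sum_congr rfl fun φ _ => ?_
    simp only [hg]
    rw [← Finset.mul_sum, sum_ker R hE, mul_comm]
  exact (mul_left_cancel₀ hN (h2.symm.trans h1)).symm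

/-- A set of vertices closed under taking vertices of smaller colour in a common edge. -/
def IsClosedDown (E : Finset (Fin r → V)) (T : Finset V) : Prop :=
  ∀ e ∈ E, ∀ i j : Fin r, i < j → e j ∈ T → e i ∈ T

theorem peel [Nonempty W] (hE : ∀ e ∈ E, ∀ i, c (e i) = i) (z : Fin r → W) (T : Finset V)
    (hT : IsClosedDown E T) (g : (V → W) → ℝ)
    (hg : ∀ φ ψ : V → W, (∀ v ∈ T, φ v = ψ v) → g φ = g ψ) :
    ∀ (n : ℕ) (T' : Finset V), (T' \ T).card = n → T ⊆ T' → IsClosedDown E T' →
      ∑ φ : V → W, g φ * ∏ w ∈ T', ker c E R w z φ =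
        ∑ φ : V → W, g φ * ∏ w ∈ T, ker c E R w z φ := by
  intro n
  induction n with
  | zero =>
    intro T' hcard hsub _
    have : T' = T := by
      apply Finset.Subset.antisymm _ hsub
      rw [Finset.card_eq_zero, Finset.sdiff_eq_empty_iff_subset] at hcard
      exact hcard
    rw [this]
  | succ n ih =>
    intro T' hcard hsub hT'
    have hne : (T' \ T).Nonempty := by
      rw [← Finset.card_pos]; omega
    obtain ⟨w, hw, hmax⟩ := Finset.exists_max_image (T' \ T) c hne
    rw [Finset.mem_sdiff] at hw
    have hclosed : IsClosedDown E (T'.erase w) := by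
      intro e he i j hij hj
      rw [Finset.mem_erase] at hj ⊢
      refine ⟨?_, hT' e he i j hij hj.2⟩
      intro heq
      by_cases hjT : e j ∈ T
      · exact hw.2 (heq ▸ hT e he i j hij hjT)
      · have h1 := hmax (e j) (Finset.mem_sdiff.2 ⟨hj.2, hjT⟩)
        rw [hE e he j, ← heq, hE e he i] at h1
        exact absurd hij (not_lt.2 h1)
    have hsub' : T ⊆ T'.erase w := by
      intro x hx
      rw [Finset.mem_erase]
      exact ⟨fun h => hw.2 (h ▸ hx), hsub hx⟩
    have hcard' : (T'.erase w \ T).card = n := by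
      rw [Finset.erase_sdiff_comm, Finset.card_erase_of_mem (Finset.mem_sdiff.2 hw), hcard]
      rfl
    rw [← ih (T'.erase w) hcard' hsub' hclosed]
    have h1 : ∀ φ : V → W, g φ * ∏ w ∈ T', ker c E R w z φ =
        (g φ * ∏ u ∈ T'.erase w, ker c E R u z φ) * ker c E R w z φ := by
      intro φ
      rw [← Finset.prod_erase_mul T' _ hw.1, mul_assoc]
    simp only [h1]
    apply sum_mul_ker R hE
    intro φ y
    have h2 : g (Function.update φ w y) = g φ := by
      apply hg
      intro v hv
      rw [Function.update_of_ne]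
      rintro rfl
      exact hw.2 hv
    rw [h2]
    congr 1
    refine Finset.prod_congr rfl fun u hu => ?_
    rw [Finset.mem_erase] at hu
    apply ker_congr
    · intro e he heu i hi
      rw [Function.update_of_ne]
      intro heq
      by_cases huT : u ∈ T
      · exact hw.2 (heq ▸ hT e he i (c u) hi (by rw [heu]; exact huT))
      · have h3 := hmax u (Finset.mem_sdiff.2 ⟨hu.2, huT⟩)
        rw [← heq, hE e he i] at h3
        exact absurd hi (not_lt.2 h3)
    · rw [Function.update_of_ne hu.1]

/-- On the support of the process all the intermediate relations hold. -/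
theorem support (hE : ∀ e ∈ E, ∀ i, c (e i) = i) (z : Fin r → W) (hz : R z) (φ : V → W)
    (T : Finset V) (hT : IsClosedDown E T) (hφ : ∀ w ∈ T, ker c E R w z φ ≠ 0) :
    ∀ (j : ℕ), j ≤ r → ∀ e ∈ E, (∀ i : Fin r, (i : ℕ) < j → e i ∈ T) →
      R (fun i => if (i : ℕ) < j then φ (e i) else z i) := by
  intro j
  induction j with
  | zero =>
    intro _ e _ _
    simpa using hz
  | succ j ih =>
    intro hj e he hi
    have hjr : j < r := by omega
    set w : V := e ⟨j, hjr⟩ with hw
    have hwT : w ∈ T := hi ⟨j, hjr⟩ (by simp)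
    have hcw : c w = ⟨j, hjr⟩ := hE e he _
    have hdom : z ⟨j, hjr⟩ ∈ dom c E R w z φ := by
      rw [mem_dom]
      intro e' he' hew
      rw [hcw] at hew
      have h1 := ih (by omega) e' he' (fun i hij => hT e' he' i ⟨j, hjr⟩ hij (by rw [hew]; exact hwT))
      convert h1 using 2 with i
      rw [hcw]
      by_cases h : (i : ℕ) < j
      · rw [if_pos (show i < ⟨j, hjr⟩ from h), if_pos h]
      · rw [if_neg (show ¬ i < ⟨j, hjr⟩ from h), if_neg h]
        by_cases h2 : i = ⟨j, hjr⟩
        · rw [if_pos h2, h2]
        · rw [if_neg h2]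
    have hk := hφ w hwT
    have hφw : φ w ∈ dom c E R w z φ := by
      unfold ker at hk
      rw [if_neg (Finset.ne_empty_of_mem hdom)] at hk
      by_contra h
      rw [if_neg h] at hk
      exact hk rfl
    rw [mem_dom] at hφw
    have h2 := hφw e he (by rw [hcw])
    convert h2 using 2 with i
    rw [hcw]
    by_cases h : (i : ℕ) < j
    · rw [if_pos (show i < ⟨j, hjr⟩ from h), if_pos (by omega)]
    · rw [if_neg (show ¬ i < ⟨j, hjr⟩ from h)]
      by_cases h3 : i = ⟨j, hjr⟩
      · rw [if_pos h3, h3, if_pos (by simp)]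
      · rw [if_neg h3, if_neg]
        intro h4
        apply h3
        ext
        simp only []
        omega

/-- The vertices of smaller colour on which the embedding of `v` depends (with fuel). -/
def cone (c : V → Fin r) (E : Finset (Fin r → V)) : ℕ → V → Finset V
  | 0, _ => ∅
  | k + 1, v => (E.filter (fun e => e (c v) = v)).biUnion (fun e =>
      (univ.filter (fun i => i < c v)).biUnion (fun i => insert (e i) (cone c E k (e i))))

theorem mem_cone_succ {k : ℕ} {v x : V} : x ∈ cone c E (k + 1) v ↔
    ∃ e ∈ E, e (c v) = v ∧ ∃ i, i < c v ∧ (x = e i ∨ x ∈ cone c E k (e i)) := by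
  simp only [cone, Finset.mem_biUnion, Finset.mem_filter, Finset.mem_univ, true_and,
    Finset.mem_insert, and_assoc]

theorem color_lt_of_mem_cone (hE : ∀ e ∈ E, ∀ i, c (e i) = i) : ∀ (k : ℕ) (v x : V),
    x ∈ cone c E k v → c x < c v := by
  intro k
  induction k with
  | zero => intro v x hx; simp [cone] at hx
  | succ k ih =>
    intro v x hx
    rw [mem_cone_succ] at hx
    obtain ⟨e, he, _, i, hi, h | h⟩ := hx
    · rw [h, hE e he i]; exact hi
    · have := ih _ _ h
      rw [hE e he i] at this
      exact this.trans hi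

theorem cone_closed (hE : ∀ e ∈ E, ∀ i, c (e i) = i) : ∀ (k : ℕ) (v : V), (c v : ℕ) ≤ k →
    IsClosedDown E (cone c E k v) := by
  intro k
  induction k with
  | zero => intro v _ e _ i j _ hj; simp [cone] at hj
  | succ k ih =>
    intro v hv e he i j hij hj
    rw [mem_cone_succ] at hj ⊢
    obtain ⟨e', he', hev, i', hi', h | h⟩ := hj
    · have hji : j = i' := by
        have h1 := hE e he j
        rw [h, hE e' he' i'] at h1
        exact h1.symm
      subst hji
      refine ⟨e', he', hev, j, hi', Or.inr ?_⟩
      obtain ⟨k', rfl⟩ : ∃ k', k = k' + 1 := ⟨k - 1, by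
        have h1 : (i : ℕ) < j := hij
        have h2 : (j : ℕ) < c v := hi'
        omega⟩
      rw [mem_cone_succ]
      refine ⟨e, he, ?_, i, ?_, Or.inl rfl⟩
      · rw [hE e' he' j, h]
      · rw [hE e' he' j]; exact hij
    · have h1 : (c (e' i') : ℕ) ≤ k := by
        rw [hE e' he' i']
        have h2 : (i' : ℕ) < c v := hi'
        omega
      exact ⟨e', he', hev, i', hi', Or.inr (ih (e' i') h1 e he i j hij h)⟩

theorem card_cone_le {Δ : ℕ} (hΔ : ∀ v, (E.filter (fun e => e (c v) = v)).card ≤ Δ) :
    ∀ (k : ℕ) (v : V), 1 + (cone c E k v).card ≤ (1 + r * Δ) ^ k := by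
  intro k
  induction k with
  | zero => intro v; simp [cone]
  | succ k ih =>
    intro v
    have h1 : (cone c E (k + 1) v).card ≤ Δ * (r * (1 + r * Δ) ^ k) := by
      rw [cone]
      refine (Finset.card_biUnion_le_card_mul _ _ (r * (1 + r * Δ) ^ k) ?_).trans
        (Nat.mul_le_mul_right _ (hΔ v))
      intro e _
      refine (Finset.card_biUnion_le_card_mul _ _ ((1 + r * Δ) ^ k) ?_).trans
        (Nat.mul_le_mul_right _ ?_)
      · intro i _
        refine (Finset.card_insert_le _ _).trans ?_
        rw [add_comm]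
        exact ih (e i)
      · exact (Finset.card_filter_le _ _).trans (by simp)
    calc 1 + (cone c E (k + 1) v).card ≤ 1 + Δ * (r * (1 + r * Δ) ^ k) := by omega
      _ ≤ (1 + r * Δ) ^ k + Δ * (r * (1 + r * Δ) ^ k) := by
          have : 1 ≤ (1 + r * Δ) ^ k := Nat.one_le_pow _ _ (by omega)
          omega
      _ = (1 + r * Δ) ^ (k + 1) := by ring

/-- A vertex of `F` contained in some edge. -/
def Active (c : V → Fin r) (E : Finset (Fin r → V)) (v : V) : Prop := ∃ e ∈ E, e (c v) = v

/-- The thresholds. -/
noncomputable def thr (c : V → Fin r) (E : Finset (Fin r → V)) (A : ℕ) (x : ℝ) (v : V) : ℝ :=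
  open Classical in if Active c E v then x ^ (A ^ (c v : ℕ)) else 1

theorem thr_pos {A : ℕ} {x : ℝ} (hx : 0 < x) (v : V) : 0 < thr c E A x v := by
  unfold thr
  split_ifs
  · positivity
  · exact zero_lt_one

theorem thr_le {A : ℕ} {x : ℝ} (hx : 0 < x) (hx1 : x ≤ 1) (hA : 1 ≤ A)
    (hE : ∀ e ∈ E, ∀ i, c (e i) = i)
    (hcard : ∀ v, 1 + (cone c E r v).card ≤ A) (v : V) (hv : Active c E v) :
    thr c E A x v ≤ x * ∏ w ∈ cone c E r v, thr c E A x w := by
  have h0 : thr c E A x v = x ^ (A ^ (c v : ℕ)) := by
    unfold thr; rw [if_pos hv]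
  rw [h0]
  by_cases hc : (c v : ℕ) = 0
  · have hemp : cone c E r v = ∅ := by
      rw [Finset.eq_empty_iff_forall_notMem]
      intro w hw
      have := color_lt_of_mem_cone hE _ _ _ hw
      rw [Fin.lt_def] at this
      omega
    rw [hemp, hc]
    simp
  · obtain ⟨k, hk⟩ : ∃ k, (c v : ℕ) = k + 1 := ⟨(c v : ℕ) - 1, by omega⟩
    have h1 : ∀ w ∈ cone c E r v, x ^ (A ^ k) ≤ thr c E A x w := by
      intro w hw
      have hlt := color_lt_of_mem_cone hE _ _ _ hw
      rw [Fin.lt_def] at hlt
      unfold thr
      split_ifs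
      · apply pow_le_pow_of_le_one hx.le hx1
        exact Nat.pow_le_pow_right hA (by omega)
      · exact pow_le_one₀ hx.le hx1
    have h2 : (x ^ (A ^ k)) ^ (cone c E r v).card ≤ ∏ w ∈ cone c E r v, thr c E A x w := by
      rw [← Finset.prod_const]
      exact Finset.prod_le_prod (fun _ _ => by positivity) h1
    refine le_trans ?_ (mul_le_mul_of_nonneg_left h2 hx.le)
    rw [← pow_mul, ← pow_succ', hk]
    apply pow_le_pow_of_le_one hx.le hx1
    have h3 := hcard v
    have h4 : 1 ≤ A ^ k := Nat.one_le_pow _ _ hA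
    calc A ^ k * (cone c E r v).card + 1 ≤ A ^ k * (cone c E r v).card + A ^ k := by omega
      _ = A ^ k * (1 + (cone c E r v).card) := by ring
      _ ≤ A ^ k * A := Nat.mul_le_mul_left _ h3
      _ = A ^ (k + 1) := by ring

theorem dom_of_not_active {v : V} (hv : ¬ Active c E v) (z : Fin r → W) (φ : V → W) :
    dom c E R v z φ = univ := by
  ext y
  rw [mem_dom]
  simp only [Finset.mem_univ, iff_true]
  intro e he hev
  exact absurd ⟨e, he, hev⟩ hv

/-- The bad event at `v`. -/
def Bad (c : V → Fin r) (E : Finset (Fin r → V)) (R : (Fin r → W) → Prop) (A : ℕ) (x : ℝ)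
    (v : V) (z : Fin r → W) (φ : V → W) : Prop :=
  ((dom c E R v z φ).card : ℝ) < thr c E A x v * (Fintype.card W : ℝ) ∧
    ∀ w ∈ cone c E r v, thr c E A x w * (Fintype.card W : ℝ) ≤ ((dom c E R w z φ).card : ℝ)

theorem ker_le [Nonempty W] {A : ℕ} {x : ℝ} (hx : 0 < x) (v : V) (z : Fin r → W) (φ : V → W)
    (h : thr c E A x v * (Fintype.card W : ℝ) ≤ ((dom c E R v z φ).card : ℝ)) :
    ker c E R v z φ ≤ (thr c E A x v)⁻¹ := by
  have hN : (0 : ℝ) < (Fintype.card W : ℝ) := by
    rw [Nat.cast_pos]; exact Fintype.card_pos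
  have ht : 0 < thr c E A x v := thr_pos hx v
  have hpos : 0 < ((dom c E R v z φ).card : ℝ) := lt_of_lt_of_le (by positivity) h
  unfold ker
  split_ifs with h1 h2
  · rw [h1] at hpos
    simp at hpos
  · rw [div_le_iff₀ hpos, inv_mul_eq_div, le_div_iff₀ ht, mul_comm]
    exact h
  · positivity

open Classical in
theorem sum_z_le [Nonempty W] (v : V) (φ : V → W) (t : ℝ) (ht : 0 ≤ t) :
    ∑ z : Fin r → W, (if z (c v) ∈ dom c E R v z φ ∧
      ((dom c E R v z φ).card : ℝ) < t * (Fintype.card W : ℝ) then (1 : ℝ) else 0) ≤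
      t * (Fintype.card W : ℝ) ^ r := by
  have hN : (0 : ℝ) < (Fintype.card W : ℝ) := by
    rw [Nat.cast_pos]; exact Fintype.card_pos
  have h1 := sum_update (c v) (fun z : Fin r → W => (if z (c v) ∈ dom c E R v z φ ∧
      ((dom c E R v z φ).card : ℝ) < t * (Fintype.card W : ℝ) then (1 : ℝ) else 0))
  have h2 : ∑ z : Fin r → W, ∑ y : W, (if (Function.update z (c v) y) (c v) ∈
      dom c E R v (Function.update z (c v) y) φ ∧
      ((dom c E R v (Function.update z (c v) y) φ).card : ℝ) < t * (Fintype.card W : ℝ)
        then (1 : ℝ) else 0) ≤ ∑ z : Fin r → W, t * (Fintype.card W : ℝ) := by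
    refine Finset.sum_le_sum fun z _ => ?_
    have h3 : ∀ y : W, dom c E R v (Function.update z (c v) y) φ = dom c E R v z φ := by
      intro y
      apply dom_congr_z
      intro i hi
      rw [Function.update_of_ne hi.ne']
    simp only [h3, Function.update_self]
    by_cases h4 : ((dom c E R v z φ).card : ℝ) < t * (Fintype.card W : ℝ)
    · simp only [h4, and_true]
      rw [Finset.sum_ite_mem, Finset.univ_inter, Finset.sum_const, nsmul_eq_mul, mul_one]
      exact h4.le
    · simp only [h4, and_false, if_false, Finset.sum_const_zero]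
      positivity
  rw [h1] at h2
  rw [Finset.sum_const, Finset.card_univ, Fintype.card_fun, Fintype.card_fin, nsmul_eq_mul,
    Nat.cast_pow] at h2
  have h5 : (Fintype.card W : ℝ) * ∑ z : Fin r → W, (if z (c v) ∈ dom c E R v z φ ∧
      ((dom c E R v z φ).card : ℝ) < t * (Fintype.card W : ℝ) then (1 : ℝ) else 0) ≤
      (Fintype.card W : ℝ) * (t * (Fintype.card W : ℝ) ^ r) := by
    refine h2.trans (le_of_eq (by ring))
  exact le_of_mul_le_mul_left h5 hN

theorem mem_cone_of_edge (hr : 0 < r) {e : Fin r → V} (he : e ∈ E) {v : V} (hev : e (c v) = v)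
    {i : Fin r} (hi : i < c v) : e i ∈ cone c E r v := by
  obtain ⟨r', rfl⟩ : ∃ r', r = r' + 1 := ⟨r - 1, by omega⟩
  rw [mem_cone_succ]
  exact ⟨e, he, hev, i, hi, Or.inl rfl⟩

open Classical in
theorem bad_estimate [Nonempty W] (hr : 0 < r) (hE : ∀ e ∈ E, ∀ i, c (e i) = i) {A : ℕ}
    (hA : 1 ≤ A) (hcard : ∀ v, 1 + (cone c E r v).card ≤ A) {x : ℝ} (hx : 0 < x) (hx1 : x ≤ 1)
    (v : V) :
    ∑ z ∈ univ.filter R, ∑ φ : V → W, (if Bad c E R A x v z φ then (1 : ℝ) else 0) *
      ∏ w, ker c E R w z φ ≤ x * (Fintype.card W : ℝ) ^ r *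
        (Fintype.card W : ℝ) ^ (Fintype.card V) := by
  have hN : (0 : ℝ) < (Fintype.card W : ℝ) := by
    rw [Nat.cast_pos]; exact Fintype.card_pos
  by_cases hv : Active c E v
  swap
  · -- an isolated vertex is never bad
    have h1 : ∀ z φ, ¬ Bad c E R A x v z φ := by
      intro z φ hb
      have h2 := hb.1
      rw [dom_of_not_active R hv, Finset.card_univ] at h2
      unfold thr at h2
      rw [if_neg hv, one_mul] at h2
      exact lt_irrefl _ h2
    simp only [h1, if_false, zero_mul, Finset.sum_const_zero]
    positivity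
  have hclosed := cone_closed hE r v (le_of_lt (c v).isLt)
  -- pointwise bound
  have hpt : ∀ z : Fin r → W, R z → ∀ φ : V → W,
      (if Bad c E R A x v z φ then (1 : ℝ) else 0) * ∏ w ∈ cone c E r v, ker c E R w z φ ≤
      (∏ w ∈ cone c E r v, (thr c E A x w)⁻¹) * (if z (c v) ∈ dom c E R v z φ ∧
        ((dom c E R v z φ).card : ℝ) < thr c E A x v * (Fintype.card W : ℝ)
          then (1 : ℝ) else 0) := by
    intro z hz φ
    have hprod : 0 < ∏ w ∈ cone c E r v, (thr c E A x w)⁻¹ :=
      Finset.prod_pos fun w _ => inv_pos.2 (thr_pos hx w)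
    by_cases hb : Bad c E R A x v z φ
    swap
    · rw [if_neg hb, zero_mul]
      exact mul_nonneg hprod.le (by split_ifs; exacts [zero_le_one, le_rfl])
    rw [if_pos hb, one_mul]
    by_cases hsupp : ∀ w ∈ cone c E r v, ker c E R w z φ ≠ 0
    swap
    · push Not at hsupp
      obtain ⟨w, hw, hw0⟩ := hsupp
      rw [Finset.prod_eq_zero hw hw0]
      exact mul_nonneg hprod.le (by split_ifs; exacts [zero_le_one, le_rfl])
    have hmem : z (c v) ∈ dom c E R v z φ := by
      rw [mem_dom]
      intro e he hev
      have h1 := support R hE z hz φ _ hclosed hsupp (c v) (le_of_lt (c v).isLt) e he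
        (fun i hi => mem_cone_of_edge hr he hev hi)
      convert h1 using 2 with i
      by_cases h : i < c v
      · rw [if_pos h, if_pos (show (i : ℕ) < c v from h)]
      · rw [if_neg h, if_neg (show ¬ (i : ℕ) < c v from h)]
        split_ifs with h2
        · rw [h2]
        · rfl
    rw [if_pos ⟨hmem, hb.1⟩, mul_one]
    exact Finset.prod_le_prod (fun w _ => ker_nonneg c E R w z φ)
      (fun w hw => ker_le R hx w z φ (hb.2 w hw))
  -- peel
  have hpeel : ∀ z : Fin r → W,
      ∑ φ : V → W, (if Bad c E R A x v z φ then (1 : ℝ) else 0) * ∏ w, ker c E R w z φ =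
      ∑ φ : V → W, (if Bad c E R A x v z φ then (1 : ℝ) else 0) *
        ∏ w ∈ cone c E r v, ker c E R w z φ := by
    intro z
    refine peel R hE z (cone c E r v) hclosed _ ?_ _ univ rfl (Finset.subset_univ _) ?_
    · intro φ ψ hφψ
      have h1 : Bad c E R A x v z φ ↔ Bad c E R A x v z ψ := by
        have hd : dom c E R v z φ = dom c E R v z ψ := by
          apply dom_congr
          intro e he hev i hi
          exact hφψ _ (mem_cone_of_edge hr he hev hi)
        unfold Bad
        rw [hd]
        refine and_congr Iff.rfl (forall₂_congr fun w hw => ?_)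
        have hd2 : dom c E R w z φ = dom c E R w z ψ := by
          apply dom_congr
          intro e he hew i hi
          exact hφψ _ (hclosed e he i (c w) hi (by rw [hew]; exact hw))
        rw [hd2]
      simp only [h1]
    · intro e _ i j _ _
      exact Finset.mem_univ _
  calc ∑ z ∈ univ.filter R, ∑ φ : V → W, (if Bad c E R A x v z φ then (1 : ℝ) else 0) *
        ∏ w, ker c E R w z φ
      ≤ ∑ z ∈ univ.filter R, ∑ φ : V → W, (∏ w ∈ cone c E r v, (thr c E A x w)⁻¹) *
          (if z (c v) ∈ dom c E R v z φ ∧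
          ((dom c E R v z φ).card : ℝ) < thr c E A x v * (Fintype.card W : ℝ)
            then (1 : ℝ) else 0) := by
        refine Finset.sum_le_sum fun z hz => ?_
        rw [hpeel z]
        exact Finset.sum_le_sum fun φ _ => hpt z (Finset.mem_filter.1 hz).2 φ
    _ ≤ ∑ z : Fin r → W, ∑ φ : V → W, (∏ w ∈ cone c E r v, (thr c E A x w)⁻¹) *
          (if z (c v) ∈ dom c E R v z φ ∧
          ((dom c E R v z φ).card : ℝ) < thr c E A x v * (Fintype.card W : ℝ)
            then (1 : ℝ) else 0) := by
        apply Finset.sum_le_sum_of_subset_of_nonneg (Finset.filter_subset _ _)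
        intro z _ _
        refine Finset.sum_nonneg fun φ _ => ?_
        refine mul_nonneg (Finset.prod_nonneg fun w _ => (inv_pos.2 (thr_pos hx w)).le) ?_
        split_ifs
        · exact zero_le_one
        · exact le_rfl
    _ = (∏ w ∈ cone c E r v, (thr c E A x w)⁻¹) * ∑ φ : V → W, ∑ z : Fin r → W,
          (if z (c v) ∈ dom c E R v z φ ∧
          ((dom c E R v z φ).card : ℝ) < thr c E A x v * (Fintype.card W : ℝ)
            then (1 : ℝ) else 0) := by
        rw [Finset.sum_comm]
        simp only [Finset.mul_sum]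
    _ ≤ (∏ w ∈ cone c E r v, (thr c E A x w)⁻¹) * ∑ φ : V → W,
          thr c E A x v * (Fintype.card W : ℝ) ^ r := by
        refine mul_le_mul_of_nonneg_left ?_
          (Finset.prod_nonneg fun w _ => (inv_pos.2 (thr_pos hx w)).le)
        exact Finset.sum_le_sum fun φ _ => sum_z_le R v φ _ (thr_pos hx v).le
    _ = ((∏ w ∈ cone c E r v, (thr c E A x w)⁻¹) * thr c E A x v) *
          (Fintype.card W : ℝ) ^ r * (Fintype.card W : ℝ) ^ (Fintype.card V) := by
        rw [Finset.sum_const, Finset.card_univ, Fintype.card_fun, nsmul_eq_mul, Nat.cast_pow]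
        ring
    _ ≤ x * (Fintype.card W : ℝ) ^ r * (Fintype.card W : ℝ) ^ (Fintype.card V) := by
        have h1 := thr_le hx hx1 hA hE hcard v hv
        have hprod : 0 < ∏ w ∈ cone c E r v, thr c E A x w :=
          Finset.prod_pos fun w _ => thr_pos hx w
        have h2 : (∏ w ∈ cone c E r v, (thr c E A x w)⁻¹) * thr c E A x v ≤ x := by
          rw [Finset.prod_inv_distrib, inv_mul_eq_div, div_le_iff₀ hprod]
          exact h1
        gcongr

/-- All vertices are good. -/
def Good (c : V → Fin r) (E : Finset (Fin r → V)) (R : (Fin r → W) → Prop) (A : ℕ) (x : ℝ)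
    (z : Fin r → W) (φ : V → W) : Prop :=
  ∀ v, thr c E A x v * (Fintype.card W : ℝ) ≤ ((dom c E R v z φ).card : ℝ)

open Classical in
theorem one_le_good_add_bad (hE : ∀ e ∈ E, ∀ i, c (e i) = i) {A : ℕ} {x : ℝ}
    (z : Fin r → W) (φ : V → W) :
    (1 : ℝ) ≤ (if Good c E R A x z φ then (1 : ℝ) else 0) +
      ∑ v, (if Bad c E R A x v z φ then (1 : ℝ) else 0) := by
  have hnn : ∀ v : V, (0 : ℝ) ≤ (if Bad c E R A x v z φ then (1 : ℝ) else 0) := by
    intro v; split_ifs; exacts [zero_le_one, le_rfl]
  by_cases hg : Good c E R A x z φ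
  · rw [if_pos hg]
    have := Finset.sum_nonneg (s := (univ : Finset V)) (fun v _ => hnn v)
    linarith
  · rw [if_neg hg, zero_add]
    unfold Good at hg
    push Not at hg
    obtain ⟨v0, hv0⟩ := hg
    obtain ⟨v, hv, hmin⟩ := Finset.exists_min_image
      (univ.filter (fun v => ((dom c E R v z φ).card : ℝ) <
        thr c E A x v * (Fintype.card W : ℝ))) c ⟨v0, by simpa using hv0⟩
    rw [Finset.mem_filter] at hv
    have hb : Bad c E R A x v z φ := by
      refine ⟨hv.2, fun w hw => ?_⟩
      by_contra hlt
      rw [not_le] at hlt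
      have h1 := hmin w (by simpa using hlt)
      exact absurd (color_lt_of_mem_cone hE _ _ _ hw) (not_lt.2 h1)
    have h2 := Finset.single_le_sum (f := fun v => (if Bad c E R A x v z φ then (1 : ℝ) else 0))
      (fun v _ => hnn v) (Finset.mem_univ v)
    simp only [hb, if_true] at h2
    exact h2

open Classical in
/-- The number of maps that send all edges into the relation. -/
noncomputable def homs (E : Finset (Fin r → V)) (R : (Fin r → W) → Prop) : Finset (V → W) :=
  univ.filter (fun φ => ∀ e ∈ E, R (fun i => φ (e i)))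

theorem mem_homs {E : Finset (Fin r → V)} {R : (Fin r → W) → Prop} {φ : V → W} :
    φ ∈ homs E R ↔ ∀ e ∈ E, R (fun i => φ (e i)) := by
  classical
  unfold homs
  rw [Finset.mem_filter]
  simp only [Finset.mem_univ, true_and]

open Classical in
theorem good_estimate [Nonempty W] (hE : ∀ e ∈ E, ∀ i, c (e i) = i) {A : ℕ} {x : ℝ}
    (hx : 0 < x) :
    ∑ z ∈ univ.filter R, ∑ φ : V → W, (if Good c E R A x z φ then (1 : ℝ) else 0) *
      ∏ w, ker c E R w z φ ≤ (∏ v, (thr c E A x v)⁻¹) * (Fintype.card W : ℝ) ^ r *
        ((homs E R).card : ℝ) := by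
  have hprod : 0 < ∏ w, (thr c E A x w)⁻¹ :=
    Finset.prod_pos fun w _ => inv_pos.2 (thr_pos hx w)
  have hpt : ∀ z : Fin r → W, R z → ∀ φ : V → W,
      (if Good c E R A x z φ then (1 : ℝ) else 0) * ∏ w, ker c E R w z φ ≤
      (∏ w, (thr c E A x w)⁻¹) * (if φ ∈ homs E R then (1 : ℝ) else 0) := by
    intro z hz φ
    by_cases hg : Good c E R A x z φ
    swap
    · rw [if_neg hg, zero_mul]
      exact mul_nonneg hprod.le (by split_ifs; exacts [zero_le_one, le_rfl])
    rw [if_pos hg, one_mul]
    by_cases hsupp : ∀ w ∈ (univ : Finset V), ker c E R w z φ ≠ 0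
    swap
    · push Not at hsupp
      obtain ⟨w, hw, hw0⟩ := hsupp
      rw [Finset.prod_eq_zero hw hw0]
      exact mul_nonneg hprod.le (by split_ifs; exacts [zero_le_one, le_rfl])
    have hmem : φ ∈ homs E R := by
      rw [homs, Finset.mem_filter]
      refine ⟨Finset.mem_univ _, fun e he => ?_⟩
      have h1 := support R hE z hz φ univ (fun e _ i j _ _ => Finset.mem_univ _) hsupp r le_rfl
        e he (fun i _ => Finset.mem_univ _)
      convert h1 using 2 with i
      rw [if_pos i.isLt]
    rw [if_pos hmem, mul_one]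
    exact Finset.prod_le_prod (fun w _ => ker_nonneg c E R w z φ)
      (fun w _ => ker_le R hx w z φ (hg w))
  calc ∑ z ∈ univ.filter R, ∑ φ : V → W, (if Good c E R A x z φ then (1 : ℝ) else 0) *
        ∏ w, ker c E R w z φ
      ≤ ∑ z ∈ univ.filter R, ∑ φ : V → W,
          (∏ w, (thr c E A x w)⁻¹) * (if φ ∈ homs E R then (1 : ℝ) else 0) := by
        refine Finset.sum_le_sum fun z hz => Finset.sum_le_sum fun φ _ =>
          hpt z (Finset.mem_filter.1 hz).2 φ
    _ ≤ ∑ z : Fin r → W, ∑ φ : V → W,
          (∏ w, (thr c E A x w)⁻¹) * (if φ ∈ homs E R then (1 : ℝ) else 0) := by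
        apply Finset.sum_le_sum_of_subset_of_nonneg (Finset.filter_subset _ _)
        intro z _ _
        exact Finset.sum_nonneg fun φ _ =>
          mul_nonneg hprod.le (by split_ifs; exacts [zero_le_one, le_rfl])
    _ = (∏ v, (thr c E A x v)⁻¹) * (Fintype.card W : ℝ) ^ r * ((homs E R).card : ℝ) := by
        rw [Finset.sum_const, Finset.card_univ, Fintype.card_fun, Fintype.card_fin,
          nsmul_eq_mul, Nat.cast_pow, ← Finset.mul_sum, Finset.sum_ite_mem, Finset.univ_inter,
          Finset.sum_const, nsmul_eq_mul, mul_one]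
        ring

theorem total_mass [Nonempty W] (hE : ∀ e ∈ E, ∀ i, c (e i) = i) (z : Fin r → W) :
    ∑ φ : V → W, ∏ w, ker c E R w z φ = (Fintype.card W : ℝ) ^ (Fintype.card V) := by
  have h1 := peel R hE z ∅ (fun e _ i j _ hj => by simp at hj) (fun _ => (1 : ℝ))
    (fun _ _ _ => rfl) _ univ rfl (Finset.empty_subset _) (fun e _ i j _ _ => Finset.mem_univ _)
  simp only [one_mul, Finset.prod_empty] at h1
  rw [h1, Finset.sum_const, Finset.card_univ, Fintype.card_fun, nsmul_eq_mul, mul_one,
    Nat.cast_pow]

open Classical in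
/-- The density of the relation. -/
noncomputable def rdens (R : (Fin r → W) → Prop) : ℝ :=
  ((univ.filter R).card : ℝ) / (Fintype.card W : ℝ) ^ r

/-- The homomorphism density of the edge system `E` in the relation `R`. -/
noncomputable def hdens (E : Finset (Fin r → V)) (R : (Fin r → W) → Prop) : ℝ :=
  ((homs E R).card : ℝ) / (Fintype.card W : ℝ) ^ (Fintype.card V)

theorem rdens_le_one : rdens R ≤ 1 := by
  classical
  unfold rdens
  apply div_le_one_of_le₀ _ (by positivity)
  have h := Finset.card_le_univ (univ.filter R)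
  rw [Fintype.card_fun, Fintype.card_fin] at h
  exact_mod_cast h

open Classical in
theorem core_bound [Nonempty W] (hr : 0 < r) (hE : ∀ e ∈ E, ∀ i, c (e i) = i) {A : ℕ}
    (hA : 1 ≤ A) (hcard : ∀ v, 1 + (cone c E r v).card ≤ A) (hp : 0 < rdens R) :
    rdens R / 2 * (rdens R / (2 * (Fintype.card V + 1))) ^
      (A ^ (r - 1) * (univ.filter (Active c E)).card) ≤ hdens E R := by
  have hN : (0 : ℝ) < (Fintype.card W : ℝ) := by
    rw [Nat.cast_pos]; exact Fintype.card_pos
  set p := rdens R with hpdef
  set n : ℕ := Fintype.card V with hn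
  set x : ℝ := p / (2 * (n + 1)) with hxdef
  have hn1 : (0 : ℝ) < 2 * (n + 1) := by positivity
  have hx : 0 < x := div_pos hp hn1
  have hp1 : p ≤ 1 := rdens_le_one R
  have hx1 : x ≤ 1 := by
    rw [hxdef, div_le_one hn1]
    have : (0 : ℝ) ≤ n := Nat.cast_nonneg n
    linarith
  -- total mass
  have hmass : ∑ z ∈ univ.filter R, ∑ φ : V → W, ∏ w, ker c E R w z φ =
      p * (Fintype.card W : ℝ) ^ r * (Fintype.card W : ℝ) ^ n := by
    simp only [total_mass R hE]
    rw [Finset.sum_const, nsmul_eq_mul, hpdef, rdens, div_mul_cancel₀ _ (by positivity)]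
  have hsplit : ∑ z ∈ univ.filter R, ∑ φ : V → W, ∏ w, ker c E R w z φ ≤
      ∑ z ∈ univ.filter R, ∑ φ : V → W, (if Good c E R A x z φ then (1 : ℝ) else 0) *
        ∏ w, ker c E R w z φ +
      ∑ v, ∑ z ∈ univ.filter R, ∑ φ : V → W, (if Bad c E R A x v z φ then (1 : ℝ) else 0) *
        ∏ w, ker c E R w z φ := by
    rw [Finset.sum_comm (s := (univ : Finset V)), ← Finset.sum_add_distrib]
    refine Finset.sum_le_sum fun z _ => ?_
    rw [Finset.sum_comm (s := (univ : Finset V)), ← Finset.sum_add_distrib]
    refine Finset.sum_le_sum fun φ _ => ?_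
    rw [← Finset.sum_mul, ← add_mul]
    have h1 := one_le_good_add_bad R hE (A := A) (x := x) z φ
    have h2 : 0 ≤ ∏ w, ker c E R w z φ := Finset.prod_nonneg fun w _ => ker_nonneg c E R w z φ
    nlinarith
  have hbad : ∑ v, ∑ z ∈ univ.filter R, ∑ φ : V → W,
      (if Bad c E R A x v z φ then (1 : ℝ) else 0) * ∏ w, ker c E R w z φ ≤
      n * (x * (Fintype.card W : ℝ) ^ r * (Fintype.card W : ℝ) ^ n) := by
    refine (Finset.sum_le_sum fun v _ =>
      bad_estimate R hr hE hA hcard hx hx1 v).trans (le_of_eq ?_)
    rw [Finset.sum_const, Finset.card_univ, nsmul_eq_mul]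
  have hgood := good_estimate R hE (A := A) hx
  have hnx : n * x ≤ p / 2 := by
    rw [hxdef]
    rw [mul_div_assoc', div_le_div_iff₀ hn1 two_pos]
    nlinarith
  have hkey : p / 2 * ((Fintype.card W : ℝ) ^ r * (Fintype.card W : ℝ) ^ n) ≤
      (∏ v, (thr c E A x v)⁻¹) * (Fintype.card W : ℝ) ^ r * ((homs E R).card : ℝ) := by
    have h1 : n * (x * (Fintype.card W : ℝ) ^ r * (Fintype.card W : ℝ) ^ n) ≤
        p / 2 * ((Fintype.card W : ℝ) ^ r * (Fintype.card W : ℝ) ^ n) := by
      have h2 : 0 ≤ (Fintype.card W : ℝ) ^ r * (Fintype.card W : ℝ) ^ n := by positivity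
      calc n * (x * (Fintype.card W : ℝ) ^ r * (Fintype.card W : ℝ) ^ n)
          = (n * x) * ((Fintype.card W : ℝ) ^ r * (Fintype.card W : ℝ) ^ n) := by ring
        _ ≤ _ := mul_le_mul_of_nonneg_right hnx h2
    rw [hmass] at hsplit
    linarith
  -- lower bound for the product of the thresholds
  have hthr : x ^ (A ^ (r - 1) * (univ.filter (Active c E)).card) ≤ ∏ v, thr c E A x v := by
    rw [pow_mul]
    rw [← Finset.prod_const, Finset.prod_filter]
    refine Finset.prod_le_prod (fun v _ => ?_) (fun v _ => ?_)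
    · split_ifs
      · positivity
      · exact zero_le_one
    · unfold thr
      by_cases hv : Active c E v
      · rw [if_pos hv, if_pos hv]
        apply pow_le_pow_of_le_one hx.le hx1
        exact Nat.pow_le_pow_right hA (by have := (c v).isLt; omega)
      · rw [if_neg hv, if_neg hv]
  have hprod : 0 < ∏ v, thr c E A x v := Finset.prod_pos fun w _ => thr_pos hx w
  unfold hdens
  rw [le_div_iff₀ (by positivity)]
  rw [Finset.prod_inv_distrib] at hkey
  have h3 : p / 2 * (∏ v, thr c E A x v) * (Fintype.card W : ℝ) ^ n ≤ ((homs E R).card : ℝ) := by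
    have h4 : 0 < (Fintype.card W : ℝ) ^ r := by positivity
    have h5 : (Fintype.card W : ℝ) ^ r * (p / 2 * (∏ v, thr c E A x v) *
        (Fintype.card W : ℝ) ^ n) ≤ (Fintype.card W : ℝ) ^ r * ((homs E R).card : ℝ) := by
      calc (Fintype.card W : ℝ) ^ r * (p / 2 * (∏ v, thr c E A x v) *
          (Fintype.card W : ℝ) ^ n)
          = (∏ v, thr c E A x v) * (p / 2 * ((Fintype.card W : ℝ) ^ r *
            (Fintype.card W : ℝ) ^ n)) := by ring
        _ ≤ (∏ v, thr c E A x v) * ((∏ v, thr c E A x v)⁻¹ * (Fintype.card W : ℝ) ^ r *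
            ((homs E R).card : ℝ)) := mul_le_mul_of_nonneg_left hkey hprod.le
        _ = (Fintype.card W : ℝ) ^ r * ((homs E R).card : ℝ) := by
            field_simp
    exact le_of_mul_le_mul_left h5 h4
  refine le_trans ?_ h3
  gcongr

/-! ### The tensor power trick -/

/-- The `m`-th tensor power of a relation. -/
def tpow (m : ℕ) (R : (Fin r → W) → Prop) : (Fin r → (Fin m → W)) → Prop :=
  fun x => ∀ t : Fin m, R (fun i => x i t)

open Classical in
theorem card_filter_pi {X Y : Type} [Fintype X] [DecidableEq X] [Fintype Y] [DecidableEq Y]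
    (m : ℕ) (P : (X → Y) → Prop) :
    (univ.filter (fun f : X → (Fin m → Y) => ∀ t : Fin m, P (fun x => f x t))).card =
      (univ.filter P).card ^ m := by
  have h1 : (univ.filter (fun f : X → (Fin m → Y) => ∀ t : Fin m, P (fun x => f x t))).card =
      (Fintype.piFinset (fun _ : Fin m => univ.filter P)).card := by
    apply Finset.card_bij (fun f _ => fun t x => f x t)
    · intro f hf
      rw [Fintype.mem_piFinset]
      intro t
      rw [Finset.mem_filter] at hf ⊢
      exact ⟨Finset.mem_univ _, hf.2 t⟩
    · intro f _ g _ hfg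
      funext x t
      exact congrFun (congrFun hfg t) x
    · intro g hg
      refine ⟨fun x t => g t x, ?_, rfl⟩
      rw [Fintype.mem_piFinset] at hg
      rw [Finset.mem_filter]
      exact ⟨Finset.mem_univ _, fun t => (Finset.mem_filter.1 (hg t)).2⟩
  rw [h1, Fintype.card_piFinset]
  simp

open Classical in
theorem rdens_tpow (m : ℕ) : rdens (tpow m R) = rdens R ^ m := by
  unfold rdens
  have h1 : (univ.filter (tpow m R)).card = (univ.filter R).card ^ m := by
    rw [← card_filter_pi m R]
    congr 1
    ext f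
    simp only [Finset.mem_filter, Finset.mem_univ, true_and, tpow]
  rw [h1, Fintype.card_fun, Fintype.card_fin, div_pow]
  push_cast
  rw [← pow_mul, ← pow_mul, mul_comm]

open Classical in
theorem hdens_tpow (m : ℕ) : hdens E (tpow m R) = hdens E R ^ m := by
  unfold hdens
  have h1 : (homs E (tpow m R)).card = (homs E R).card ^ m := by
    have h2 := card_filter_pi (X := V) m (fun φ : V → W => φ ∈ homs E R)
    have h3 : homs E (tpow m R) = univ.filter (fun f : V → (Fin m → W) =>
        ∀ t : Fin m, (fun x => f x t) ∈ homs E R) := by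
      ext f
      rw [mem_homs, Finset.mem_filter]
      simp only [tpow, mem_homs, Finset.mem_univ, true_and]
      constructor
      · intro h t e he; exact h e he t
      · intro h e he t; exact h t e he
    rw [h3]
    refine Eq.trans ?_ (h2.trans ?_)
    · congr 1
      ext f
      simp only [Finset.mem_filter, Finset.mem_univ, true_and]
    · congr 2
      ext f
      simp only [Finset.mem_filter, Finset.mem_univ, true_and]
  rw [h1, Fintype.card_fun, Fintype.card_fin, div_pow]
  push_cast
  rw [← pow_mul, ← pow_mul, mul_comm]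

open Classical in
theorem main_bound [Nonempty W] (hr : 0 < r) (hE : ∀ e ∈ E, ∀ i, c (e i) = i) {Δ : ℕ}
    (hΔ : ∀ v, (E.filter (fun e => e (c v) = v)).card ≤ Δ) :
    rdens R ^ (1 + (1 + r * Δ) ^ (r * (r - 1)) * (r * E.card)) ≤ hdens E R := by
  set A : ℕ := (1 + r * Δ) ^ r with hAdef
  have hA : 1 ≤ A := Nat.one_le_pow _ _ (by omega)
  have hcard : ∀ v, 1 + (cone c E r v).card ≤ A := fun v => card_cone_le hΔ r v
  have hnn : 0 ≤ rdens R := by unfold rdens; positivity
  have hhnn : 0 ≤ hdens E R := by unfold hdens; positivity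
  rcases hnn.eq_or_lt with h0 | hp
  · rw [← h0, zero_pow (by omega)]
    exact hhnn
  set M : ℕ := A ^ (r - 1) * (univ.filter (Active c E)).card with hM
  -- bound with a constant, for all relations
  have hact : (univ.filter (Active c E)).card ≤ r * E.card := by
    have h1 : univ.filter (Active c E) ⊆ (E ×ˢ (univ : Finset (Fin r))).image
        (fun p => p.1 p.2) := by
      intro v hv
      rw [Finset.mem_filter] at hv
      obtain ⟨e, he, hev⟩ := hv.2
      rw [Finset.mem_image]
      exact ⟨(e, c v), Finset.mk_mem_product he (Finset.mem_univ _), hev⟩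
    refine (Finset.card_le_card h1).trans (Finset.card_image_le.trans ?_)
    rw [Finset.card_product, Finset.card_univ, Fintype.card_fin, mul_comm]
  have hle : rdens R ^ (1 + (1 + r * Δ) ^ (r * (r - 1)) * (r * E.card)) ≤
      rdens R ^ (1 + M) := by
    apply pow_le_pow_of_le_one hnn (rdens_le_one R)
    have : M ≤ (1 + r * Δ) ^ (r * (r - 1)) * (r * E.card) := by
      rw [hM, hAdef, ← pow_mul]
      exact Nat.mul_le_mul_left _ hact
    omega
  refine hle.trans ?_
  set κ : ℝ := 1 / 2 * (1 / (2 * (Fintype.card V + 1))) ^ M with hκ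
  have hκpos : 0 < κ := by positivity
  have hall : ∀ m : ℕ, κ * (rdens R ^ (1 + M)) ^ m ≤ hdens E R ^ m := by
    intro m
    have h1 := core_bound (tpow m R) (c := c) (E := E) hr hE hA hcard
      (by rw [rdens_tpow]; positivity)
    rw [rdens_tpow, hdens_tpow] at h1
    refine le_trans (le_of_eq ?_) h1
    rw [hκ, ← hM]
    have h2 : rdens R ^ m / (2 * ((Fintype.card V : ℝ) + 1)) =
        rdens R ^ m * (1 / (2 * ((Fintype.card V : ℝ) + 1))) := by ring
    rw [h2, mul_pow]
    ring
  by_contra hlt
  rw [not_le] at hlt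
  have hpp : 0 < rdens R ^ (1 + M) := by positivity
  set q : ℝ := hdens E R / rdens R ^ (1 + M) with hq
  have hq0 : 0 ≤ q := by positivity
  have hq1 : q < 1 := by rw [hq, div_lt_one hpp]; exact hlt
  obtain ⟨m, hm⟩ := exists_pow_lt_of_lt_one hκpos hq1
  have h3 := hall m
  rw [hq, div_pow, div_lt_iff₀ (by positivity)] at hm
  linarith

end Core

/-! ## Hypergraphs -/

/-- An `r`-graph with vertex set `V`: a finite set of edges, each a set of `r` vertices. -/
structure RGraph (r : ℕ) (V : Type) where
  /-- The set of edges. -/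
  edges : Finset (Finset V)
  /-- Every edge has exactly `r` vertices. -/
  card_eq : ∀ e ∈ edges, e.card = r

namespace RGraph

variable {r : ℕ} {V W : Type}

/-- `F` is `r`-partite: the vertices can be split into `r` parts (the colour classes of `c`) such
that every edge has exactly one vertex in each part. -/
def IsPartite (F : RGraph r V) : Prop :=
  ∃ c : V → Fin r, ∀ e ∈ F.edges, ∀ i : Fin r, ∃! v, v ∈ e ∧ c v = i

/-- The degree of a vertex: the number of edges containing it. -/
def degree [DecidableEq V] (F : RGraph r V) (v : V) : ℕ :=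
  (F.edges.filter (fun e => v ∈ e)).card

/-- A map is a homomorphism if it sends every edge onto an edge. -/
def IsHom [DecidableEq W] (F : RGraph r V) (H : RGraph r W) (φ : V → W) : Prop :=
  ∀ e ∈ F.edges, e.image φ ∈ H.edges

/-- The number of homomorphisms from `F` to `H`. -/
noncomputable def homCount [DecidableEq W] (F : RGraph r V) (H : RGraph r W) : ℕ :=
  Nat.card {φ : V → W // F.IsHom H φ}

/-- The homomorphism density of `F` in `H`. -/
noncomputable def density [Fintype V] [Fintype W] [DecidableEq W] (F : RGraph r V)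
    (H : RGraph r W) : ℝ :=
  (F.homCount H : ℝ) / (Fintype.card W : ℝ) ^ (Fintype.card V)

/-- The `r`-graph with `r` vertices and one edge. -/
def single (r : ℕ) : RGraph r (Fin r) where
  edges := {Finset.univ}
  card_eq := by simp

/-- The Sidorenko exponent of `F`, as an extended nonnegative real number: the supremum of all
real `s ≥ 0` for which some `r`-graph `H` satisfies `t_F(H) = t_K(H) ^ s > 0`, where `K` is the
`r`-graph with `r` vertices and one edge. -/
noncomputable def sidorenkoExponent [Fintype V] (F : RGraph r V) : ENNReal :=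
  sSup {x : ENNReal | ∃ s : ℝ, 0 ≤ s ∧ x = ENNReal.ofReal s ∧
    ∃ (W : Type) (_ : Fintype W) (_ : DecidableEq W) (H : RGraph r W),
      F.density H = (single r).density H ^ s ∧ 0 < F.density H}

end RGraph

section Main

variable {r : ℕ} {V W : Type} [Fintype V] [DecidableEq V] [Fintype W] [DecidableEq W]

/-- The relation `the values form an edge` attached to an `r`-graph. -/
def rel (H : RGraph r W) : (Fin r → W) → Prop := fun x => univ.image x ∈ H.edges

theorem density_single (H : RGraph r W) : (RGraph.single r).density H = rdens (rel H) := by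
  classical
  unfold RGraph.density rdens RGraph.homCount
  rw [Fintype.card_fin]
  congr 2
  rw [Nat.card_eq_fintype_card, Fintype.card_subtype]
  congr 1
  ext φ
  simp [RGraph.IsHom, RGraph.single, rel]

/-- Every `r`-partite `r`-graph can be described by an edge system in `Fin r → V`. -/
theorem exists_edge_system (F : RGraph r V) (hF : F.IsPartite) :
    ∃ (c : V → Fin r) (E : Finset (Fin r → V)), (∀ e ∈ E, ∀ i, c (e i) = i) ∧
      E.card ≤ F.edges.card ∧ (∀ v, (E.filter (fun e => e (c v) = v)).card ≤ F.degree v) ∧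
      ∀ (W : Type) [Fintype W] [DecidableEq W] (H : RGraph r W),
        F.density H = hdens E (rel H) := by
  classical
  obtain ⟨c, hc⟩ := hF
  -- the vertex of `e` with colour `i`
  let pick : F.edges → Fin r → V := fun e i => (hc e.1 e.2 i).choose
  have hpick : ∀ (e : F.edges) (i : Fin r), pick e i ∈ e.1 ∧ c (pick e i) = i :=
    fun e i => (hc e.1 e.2 i).choose_spec.1
  have huniq : ∀ (e : F.edges) (v : V), v ∈ e.1 → v = pick e (c v) :=
    fun e v hv => (hc e.1 e.2 (c v)).choose_spec.2 v ⟨hv, rfl⟩
  have himage : ∀ e : F.edges, univ.image (pick e) = e.1 := by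
    intro e
    ext v
    rw [Finset.mem_image]
    constructor
    · rintro ⟨i, _, rfl⟩; exact (hpick e i).1
    · intro hv; exact ⟨c v, Finset.mem_univ _, (huniq e v hv).symm⟩
  have hinj : Function.Injective pick := by
    intro e e' h
    apply Subtype.ext
    rw [← himage e, ← himage e', h]
  refine ⟨c, F.edges.attach.image pick, ?_, ?_, ?_, ?_⟩
  · intro e he i
    rw [Finset.mem_image] at he
    obtain ⟨e', _, rfl⟩ := he
    exact (hpick e' i).2
  · exact Finset.card_image_le.trans (le_of_eq Finset.card_attach)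
  · intro v
    unfold RGraph.degree
    have h1 : (F.edges.attach.image pick).filter (fun e => e (c v) = v) ⊆
        (F.edges.attach.filter (fun e => v ∈ e.1)).image pick := by
      intro e he
      rw [Finset.mem_filter, Finset.mem_image] at he
      obtain ⟨⟨e', _, rfl⟩, hev⟩ := he
      rw [Finset.mem_image]
      refine ⟨e', ?_, rfl⟩
      rw [Finset.mem_filter]
      refine ⟨Finset.mem_attach _ _, ?_⟩
      have := (hpick e' (c v)).1
      rw [hev] at this
      exact this
    refine (Finset.card_le_card h1).trans (Finset.card_image_le.trans ?_)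
    have h2 : ((F.edges.attach.filter (fun e => v ∈ e.1)).image Subtype.val).card ≤
        (F.edges.filter (fun e => v ∈ e)).card := by
      apply Finset.card_le_card
      intro e he
      rw [Finset.mem_image] at he
      obtain ⟨e', he', rfl⟩ := he
      rw [Finset.mem_filter] at he' ⊢
      exact ⟨e'.2, he'.2⟩
    rwa [Finset.card_image_of_injective _ Subtype.val_injective] at h2
  · intro W _ _ H
    unfold RGraph.density hdens RGraph.homCount
    congr 2
    rw [Nat.card_eq_fintype_card, Fintype.card_subtype]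
    congr 1
    ext φ
    rw [mem_homs, Finset.mem_filter]
    simp only [Finset.mem_univ, true_and, RGraph.IsHom, rel, Finset.mem_image,
      Finset.mem_attach]
    constructor
    · rintro h e ⟨e', rfl⟩
      have h1 := h e'.1 e'.2
      rw [← himage e', Finset.image_image] at h1
      exact h1
    · intro h e he
      have h1 := h (pick ⟨e, he⟩) ⟨⟨e, he⟩, rfl⟩
      have h2 := himage ⟨e, he⟩
      simp only [] at h2
      rw [← h2, Finset.image_image]
      exact h1

/-- **Counting lemma**: `t_F(H) ≥ t_K(H) ^ C` with `C` linear in the number of edges. -/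
theorem density_bound (hr : 0 < r) (F : RGraph r V) (hF : F.IsPartite) {Δ : ℕ}
    (hΔ : ∀ v, F.degree v ≤ Δ) [Nonempty W] (H : RGraph r W) :
    (RGraph.single r).density H ^ (1 + (1 + r * Δ) ^ (r * (r - 1)) * (r * F.edges.card)) ≤
      F.density H := by
  obtain ⟨c, E, hE, hcard, hdeg, hdens'⟩ := exists_edge_system F hF
  rw [density_single, hdens' W H]
  have h1 := main_bound (rel H) (c := c) (E := E) hr hE (fun v => (hdeg v).trans (hΔ v))
  refine le_trans ?_ h1
  apply pow_le_pow_of_le_one (by unfold rdens; positivity) (rdens_le_one _)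
  have h2 : (1 + r * Δ) ^ (r * (r - 1)) * (r * E.card) ≤
      (1 + r * Δ) ^ (r * (r - 1)) * (r * F.edges.card) :=
    Nat.mul_le_mul_left _ (Nat.mul_le_mul_left _ hcard)
  omega

/-- For `r ≥ 2` the edge density is smaller than one. -/
theorem density_single_lt_one (hr : 2 ≤ r) [Nonempty W] (H : RGraph r W) :
    (RGraph.single r).density H < 1 := by
  classical
  rw [density_single]
  unfold rdens
  have hN : (0 : ℝ) < (Fintype.card W : ℝ) := by
    rw [Nat.cast_pos]; exact Fintype.card_pos
  rw [div_lt_one (by positivity)]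
  have h1 : univ.filter (rel H) ⊂ (univ : Finset (Fin r → W)) := by
    rw [Finset.filter_ssubset]
    obtain ⟨w⟩ := ‹Nonempty W›
    refine ⟨fun _ => w, Finset.mem_univ _, ?_⟩
    intro h
    have h2 := H.card_eq _ h
    have h3 : (univ.image (fun _ : Fin r => w)).card ≤ 1 := by
      rw [Finset.card_le_one]
      intro a ha b hb
      rw [Finset.mem_image] at ha hb
      obtain ⟨_, _, rfl⟩ := ha
      obtain ⟨_, _, rfl⟩ := hb
      rfl
    omega
  have h2 := Finset.card_lt_card h1
  rw [Finset.card_univ, Fintype.card_fun, Fintype.card_fin] at h2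
  exact_mod_cast h2

end Main

/-- Sanity check of the definitions: the one-edge `r`-graph `K` has positive density in itself, so
that `1` is one of the numbers over which the supremum defining its Sidorenko exponent is taken. -/
theorem one_le_sidorenkoExponent_single (r : ℕ) (hr : 1 ≤ r) :
    1 ≤ (RGraph.single r).sidorenkoExponent := by
  unfold RGraph.sidorenkoExponent
  apply le_sSup
  refine ⟨1, zero_le_one, by simp, Fin r, inferInstance, inferInstance, RGraph.single r,
    by rw [Real.rpow_one], ?_⟩
  unfold RGraph.density RGraph.homCount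
  have h1 : Nonempty {φ : Fin r → Fin r // (RGraph.single r).IsHom (RGraph.single r) φ} := by
    refine ⟨⟨id, ?_⟩⟩
    intro e he
    rw [Finset.image_id]
    exact he
  have h2 : 0 < Nat.card {φ : Fin r → Fin r // (RGraph.single r).IsHom (RGraph.single r) φ} :=
    Nat.card_pos
  rw [Fintype.card_fin]
  have h3 : (0 : ℝ) < r := by exact_mod_cast hr
  have h4 : (0 : ℝ) < (Nat.card {φ : Fin r → Fin r //
      (RGraph.single r).IsHom (RGraph.single r) φ} : ℝ) := by exact_mod_cast h2
  positivity

/-- **Linear upper bounds on Sidorenko exponents of bounded degree hypergraphs.** For every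
`r ≥ 2`, every `Δ` and every `r`-partite `r`-graph `F` of maximum degree at most `Δ`,
`s(F) ≤ (1 + r (1 + r Δ) ^ (r (r - 1))) e(F)`. -/
theorem result (r : ℕ) (hr : 2 ≤ r) (Δ : ℕ) (V : Type) [Fintype V] [DecidableEq V]
    (F : RGraph r V) (hF : F.IsPartite) (hΔ : ∀ v, F.degree v ≤ Δ) :
    F.sidorenkoExponent ≤
      (((1 + r * (1 + r * Δ) ^ (r * (r - 1))) * F.edges.card : ℕ) : ENNReal) := by
  unfold RGraph.sidorenkoExponent
  apply sSup_le
  rintro x ⟨s, hs, rfl, W, _, _, H, hH, hpos⟩
  rw [← ENNReal.ofReal_natCast]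
  apply ENNReal.ofReal_le_ofReal
  rcases F.edges.eq_empty_or_nonempty with he | he
  · -- no edges: the homomorphism density is one
    rw [he]
    simp only [Finset.card_empty, mul_zero, Nat.cast_zero]
    by_contra hs'
    rw [not_le] at hs'
    rcases isEmpty_or_nonempty W with hW | hW
    · have h0 : (RGraph.single r).density H = 0 := by
        unfold RGraph.density
        simp only [Fintype.card_fin, Fintype.card_eq_zero, Nat.cast_zero]
        rw [zero_pow (by omega), div_zero]
      rw [h0, Real.zero_rpow hs'.ne'] at hH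
      exact hpos.ne' hH
    · have h1 : F.density H = 1 := by
        unfold RGraph.density RGraph.homCount
        have h2 : Nat.card {φ : V → W // F.IsHom H φ} = Nat.card (V → W) := by
          apply Nat.card_congr
          refine Equiv.subtypeUnivEquiv ?_
          intro φ e he'
          rw [he] at he'
          simp at he'
        rw [h2, Nat.card_eq_fintype_card, Fintype.card_fun, Nat.cast_pow]
        have hN : (0 : ℝ) < (Fintype.card W : ℝ) := by
          rw [Nat.cast_pos]; exact Fintype.card_pos
        exact div_self (by positivity)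
      have h3 := density_single_lt_one hr H
      have h4 : 0 ≤ (RGraph.single r).density H := by
        unfold RGraph.density; positivity
      rw [h1] at hH
      have h5 := Real.rpow_lt_one h4 h3 hs'
      linarith
  · have hcard : 1 ≤ F.edges.card := Finset.card_pos.2 he
    -- `W` is nonempty since there is a homomorphism
    have hW : Nonempty W := by
      by_contra hW
      rw [not_nonempty_iff] at hW
      have h0 : F.density H = 0 := by
        unfold RGraph.density
        obtain ⟨e, he'⟩ := he
        have h1 := F.card_eq e he'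
        have h2 : e.Nonempty := by rw [← Finset.card_pos]; omega
        obtain ⟨v, _⟩ := h2
        have : Nonempty V := ⟨v⟩
        have h3 : Fintype.card V ≠ 0 := Fintype.card_ne_zero
        simp only [Fintype.card_eq_zero, Nat.cast_zero]
        rw [zero_pow h3, div_zero]
      exact hpos.ne' h0
    have h1 := density_bound (by omega) F hF hΔ H
    have h2 := density_single_lt_one hr H
    have h4 : 0 ≤ (RGraph.single r).density H := by
      unfold RGraph.density; positivity
    rcases h4.eq_or_lt with h | h5
    · have hs0 : s = 0 := by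
        by_contra hs0
        rw [← h, Real.zero_rpow hs0] at hH
        exact hpos.ne' hH
      rw [hs0]
      exact Nat.cast_nonneg _
    rw [hH] at h1
    rw [← Real.rpow_natCast] at h1
    have h6 := (Real.rpow_le_rpow_left_iff_of_base_lt_one h5 h2).1 h1
    refine h6.trans ?_
    rw [Nat.cast_le]
    nlinarith

/-- The same statement in the form of the question. -/
theorem exists_function (r : ℕ) (hr : 2 ≤ r) : ∃ f : ℕ → ℕ, ∀ (Δ : ℕ) (V : Type) [Fintype V]
    [DecidableEq V] (F : RGraph r V), F.IsPartite → (∀ v, F.degree v ≤ Δ) →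
      F.sidorenkoExponent ≤ ((f Δ * F.edges.card : ℕ) : ENNReal) :=
  ⟨fun Δ => 1 + r * (1 + r * Δ) ^ (r * (r - 1)), fun Δ V _ _ F hF hΔ => result r hr Δ V F hF hΔ⟩

end Pool.Agent.Results.MP_30cdc8_co.LinearBound
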